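import Pool.Agent.Q147.MM.Stm

/-! # Project MM, jobs B1 and B2 -/

set_option autoImplicit false

namespace Pool.Agent.Q151.MM

open Finset Filter Topology Pool.Agent.Q147.MM

theorem upto_succ_of_mem {B : Set ℕ} {w : ℕ} (h : w + 1 ∈ B) :
    upto B (w + 1) = insert (w + 1) (upto B w) := by
  ext a
  rw [mem_upto, mem_insert, mem_upto]
  constructor
  · rintro ⟨⟨h1, h2⟩, h3⟩
    rcases Nat.lt_or_ge w a with h4 | h4
    · left; omega
    · right; exact ⟨⟨h1, h4⟩, h3⟩
  · rintro (rfl | ⟨⟨h1, h2⟩, h3⟩)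
    · exact ⟨⟨by omega, le_refl _⟩, h⟩
    · exact ⟨⟨h1, by omega⟩, h3⟩

theorem upto_succ_of_not_mem {B : Set ℕ} {w : ℕ} (h : w + 1 ∉ B) :
    upto B (w + 1) = upto B w := by
  ext a
  rw [mem_upto, mem_upto]
  constructor
  · rintro ⟨⟨h1, h2⟩, h3⟩
    refine ⟨⟨h1, ?_⟩, h3⟩
    by_contra h4
    have h5 : a = w + 1 := by omega
    rw [h5] at h3
    exact h h3
  · rintro ⟨⟨h1, h2⟩, h3⟩
    exact ⟨⟨h1, by omega⟩, h3⟩

theorem not_mem_upto (B : Set ℕ) (w : ℕ) : w + 1 ∉ upto B w := by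
  rw [mem_upto]
  rintro ⟨⟨h1, h2⟩, h3⟩
  omega

/-- one step: the sum changes by the change of the counting function times the value -/
theorem sum_succ (B : Set ℕ) (w : ℕ) (f : ℕ → ℝ) :
    ∑ a ∈ upto B (w + 1), f a =
      ∑ a ∈ upto B w, f a + ((cnt B (w + 1) : ℝ) - cnt B w) * f (w + 1) := by
  by_cases h : w + 1 ∈ B
  · rw [upto_succ_of_mem h, sum_insert (not_mem_upto B w)]
    unfold cnt
    rw [upto_succ_of_mem h, card_insert_of_notMem (not_mem_upto B w)]
    push_cast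
    ring
  · unfold cnt
    rw [upto_succ_of_not_mem h]
    ring

theorem upto_zero (B : Set ℕ) : upto B 0 = ∅ := by
  ext a
  rw [mem_upto]
  constructor
  · rintro ⟨⟨h1, h2⟩, h3⟩
    omega
  · intro h
    exact absurd h (notMem_empty a)

theorem t_B1 : S_B1 := by
  intro M S f ε Y z hY hf1 hcnt hf hfz
  rcases Nat.eq_zero_or_pos z with rfl | hz
  · rw [upto_zero, upto_zero, sum_empty, mul_zero, zero_add]
    exact mul_nonneg hY hf1
  have key : ∀ w, 1 ≤ w → w ≤ z → ∑ a ∈ upto M w, f a ≤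
      ε * ∑ a ∈ upto S w, f a + Y * f 1 + ((cnt M w : ℝ) - ε * cnt S w - Y) * f w := by
    intro w hw
    induction w, hw using Nat.le_induction with
    | base =>
      intro _
      have h1 := sum_succ M 0 f
      have h2 := sum_succ S 0 f
      have h3 : ∀ B : Set ℕ, (cnt B 0 : ℝ) = 0 := by
        intro B
        unfold cnt
        rw [upto_zero]
        simp
      rw [upto_zero, sum_empty, h3] at h1 h2
      simp only [zero_add] at h1 h2
      rw [h1, h2]
      apply le_of_eq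
      ring
    | succ w hw ih =>
      intro hwz
      have h1 := ih (by omega)
      have h2 := hcnt w hw (by omega)
      have h3 := hf w hw (by omega)
      rw [sum_succ M, sum_succ S]
      have h4 : ((cnt M w : ℝ) - ε * cnt S w - Y) * f w ≤
          ((cnt M w : ℝ) - ε * cnt S w - Y) * f (w + 1) :=
        mul_le_mul_of_nonpos_left h3 (by linarith)
      nlinarith [h1, h4]
  have h1 := key z hz le_rfl
  have h2 : ((cnt M z : ℝ) - ε * cnt S z - Y) * f z ≤ 0 :=
    mul_nonpos_of_nonpos_of_nonneg (by linarith [hcnt z hz le_rfl]) hfz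
  linarith

theorem t_B2 : S_B2 := by
  classical
  intro k z N
  have h1 : ∀ n : ℕ, Nat.primeCounting n = ((range (n + 1)).filter Nat.Prime).card := by
    intro n
    rw [Nat.primeCounting, Nat.primeCounting', Nat.count_eq_card_filter_range]
  obtain ⟨P, hP⟩ : ∃ P : Finset (Σ _ : ℕ, ℕ), P = (upto (Sk k) z).sigma
      (fun a => (range (N / a + 1)).filter Nat.Prime) := ⟨_, rfl⟩
  obtain ⟨R, hR⟩ : ∃ R : Finset (Σ _ : ℕ, ℕ), R = (upto (Sk (k + 1)) N).sigma
      (fun n => n.primeFactors) := ⟨_, rfl⟩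
  have hPc : ∑ a ∈ upto (Sk k) z, Nat.primeCounting (N / a) = P.card := by
    rw [hP, card_sigma]
    exact sum_congr rfl fun a _ => h1 _
  have hRc : R.card ≤ (k + 1) * cnt (Sk (k + 1)) N := by
    rw [hR, card_sigma]
    unfold cnt
    rw [mul_comm, ← smul_eq_mul]
    apply sum_le_card_nsmul
    intro n hn
    have h2 := (mem_upto.1 hn).2.2
    refine le_trans ?_ h2
    rw [ArithmeticFunction.cardFactors_apply]
    exact List.toFinset_card_le _
  rw [hPc]
  refine le_trans ?_ hRc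
  apply card_le_card_of_injOn (fun x : Σ _ : ℕ, ℕ => (⟨x.1 * x.2, x.2⟩ : Σ _ : ℕ, ℕ))
  · rintro ⟨a, p⟩ hx
    rw [mem_coe, hP, mem_sigma] at hx
    obtain ⟨ha, hp⟩ := hx
    simp only at ha hp
    rw [mem_filter, mem_range] at hp
    obtain ⟨hp1, hp2⟩ := hp
    obtain ⟨⟨ha1, ha2⟩, ha3, ha4⟩ := mem_upto.1 ha
    have hap : a * p ≤ N := by
      have h4 : p ≤ N / a := by omega
      calc a * p ≤ a * (N / a) := Nat.mul_le_mul_left _ h4
        _ ≤ N := Nat.mul_div_le N a
    have hap0 : a * p ≠ 0 := mul_ne_zero ha3 hp2.ne_zero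
    rw [mem_coe, hR, mem_sigma]
    refine ⟨mem_upto.2 ⟨⟨Nat.pos_of_ne_zero hap0, hap⟩, hap0, ?_⟩, ?_⟩
    · simp only
      rw [ArithmeticFunction.cardFactors_mul ha3 hp2.ne_zero,
        ArithmeticFunction.cardFactors_apply_prime hp2]
      omega
    · simp only
      rw [Nat.mem_primeFactors]
      exact ⟨hp2, Dvd.intro_left a rfl, hap0⟩
  · rintro ⟨a, p⟩ hx ⟨b, q⟩ hy h
    simp only [Sigma.mk.injEq, heq_eq_eq] at h
    obtain ⟨h2, h3⟩ := h
    subst h3
    rw [mem_coe, hP, mem_sigma] at hx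
    have hp := (mem_filter.1 hx.2).2
    simp only at hp
    have h4 : a = b := Nat.eq_of_mul_eq_mul_right hp.pos h2
    rw [h4]

end Pool.Agent.Q151.MM
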